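import Pool.Agent.Work.MP_833881_lc.Bucket

/-!
# Sets of nodes with few ancestors

Nodes of depth `d` are the numbers below `r * 16 ^ d`; the parent of `v` is `v / 16`.
-/

namespace Pool.Agent.Work.MP_833881_lc

open Finset

/-- The number of ancestors (including the nodes themselves) of a set of nodes of depth `d`. -/
def anc (d : ℕ) (R : Finset ℕ) : ℕ := ∑ j ∈ range (d + 1), (R.image (fun v => v / 16 ^ j)).card

theorem anc_mono {d : ℕ} {R R' : Finset ℕ} (h : R ⊆ R') : anc d R ≤ anc d R' :=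
  Finset.sum_le_sum (fun _ _ => Finset.card_le_card (Finset.image_subset_image h))

theorem anc_succ (d : ℕ) (R : Finset ℕ) : anc (d + 1) R = R.card + anc d (R.image (fun v => v / 16)) := by
  unfold anc
  rw [Finset.sum_range_succ', Nat.add_comm]
  congr 1
  · simp
  · refine Finset.sum_congr rfl (fun j _ => ?_)
    rw [Finset.image_image]
    congr 2
    funext v
    simp only [Function.comp_apply]
    rw [Nat.div_div_eq_div_mul, pow_succ, Nat.mul_comm]

theorem two_split (P R : Finset ℕ) (h : ∀ p ∈ P, ∀ q ∈ R, p < q) (g : ℕ → ℕ) (hg : Monotone g) :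
    (P.image g).card + (R.image g).card ≤ ((P ∪ R).image g).card + 1 := by
  rw [Finset.image_union, ← Finset.card_union_add_card_inter]
  refine Nat.add_le_add_left ?_ _
  rw [Finset.card_le_one]
  intro a ha b hb
  obtain ⟨ha1, ha2⟩ := Finset.mem_inter.1 ha
  obtain ⟨hb1, hb2⟩ := Finset.mem_inter.1 hb
  obtain ⟨p, hp, hpa⟩ := Finset.mem_image.1 ha1
  obtain ⟨q, hq, hqa⟩ := Finset.mem_image.1 ha2
  obtain ⟨p', hp', hpb⟩ := Finset.mem_image.1 hb1
  obtain ⟨q', hq', hqb⟩ := Finset.mem_image.1 hb2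
  have h1 := hg (h p hp q' hq').le
  have h2 := hg (h p' hp' q hq).le
  rw [hpa, hqb] at h1
  rw [hpb, hqa] at h2
  omega

theorem exists_low (R : Finset ℕ) (w : ℕ) (hw : w ≤ R.card) :
    ∃ P ⊆ R, P.card = w ∧ ∀ p ∈ P, ∀ q ∈ R \ P, p < q := by
  induction w with
  | zero => exact ⟨∅, Finset.empty_subset _, rfl, fun p hp => absurd hp (Finset.notMem_empty _)⟩
  | succ w ih =>
    obtain ⟨P, hP, hc, hlt⟩ := ih (by omega)
    have hne : (R \ P).Nonempty := by
      rw [← Finset.card_pos, Finset.card_sdiff_of_subset hP]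
      omega
    refine ⟨insert ((R \ P).min' hne) P, ?_, ?_, ?_⟩
    · refine Finset.insert_subset ?_ hP
      exact (Finset.mem_sdiff.1 (Finset.min'_mem _ hne)).1
    · rw [Finset.card_insert_of_notMem (Finset.mem_sdiff.1 (Finset.min'_mem _ hne)).2, hc]
    · intro p hp q hq
      obtain ⟨hq1, hq2⟩ := Finset.mem_sdiff.1 hq
      have hq3 : q ∈ R \ P := Finset.mem_sdiff.2 ⟨hq1, fun h => hq2 (Finset.mem_insert_of_mem h)⟩
      rcases Finset.mem_insert.1 hp with rfl | hp
      · refine lt_of_le_of_ne (Finset.min'_le _ _ hq3) ?_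
        intro h
        exact hq2 (h ▸ Finset.mem_insert_self _ _)
      · exact hlt p hp q hq3

/-- Four pieces of a set of nodes. -/
theorem pieces (R : Finset ℕ) (w : ℕ) (hR : R.card = 4 * w) :
    ∃ P0 P1 P2 P3 : Finset ℕ, R = P0 ∪ (P1 ∪ (P2 ∪ P3)) ∧ P0.card = w ∧ P1.card = w ∧ P2.card = w ∧
      P3.card = w ∧ ∀ d, anc d P0 + (anc d P1 + (anc d P2 + anc d P3)) ≤ anc d R + 3 * (d + 1) := by
  obtain ⟨P0, h0, c0, l0⟩ := exists_low R w (by omega)
  have e0 : (R \ P0).card = 3 * w := by rw [Finset.card_sdiff_of_subset h0]; omega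
  obtain ⟨P1, h1, c1, l1⟩ := exists_low (R \ P0) w (by omega)
  have e1 : ((R \ P0) \ P1).card = 2 * w := by rw [Finset.card_sdiff_of_subset h1]; omega
  obtain ⟨P2, h2, c2, l2⟩ := exists_low ((R \ P0) \ P1) w (by omega)
  have e2 : (((R \ P0) \ P1) \ P2).card = w := by rw [Finset.card_sdiff_of_subset h2]; omega
  have u2 : P2 ∪ (((R \ P0) \ P1) \ P2) = (R \ P0) \ P1 := Finset.union_sdiff_of_subset h2
  have u1 : P1 ∪ ((R \ P0) \ P1) = R \ P0 := Finset.union_sdiff_of_subset h1
  have u0 : P0 ∪ (R \ P0) = R := Finset.union_sdiff_of_subset h0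
  refine ⟨P0, P1, P2, ((R \ P0) \ P1) \ P2, ?_, c0, c1, c2, e2, ?_⟩
  · rw [u2, u1, u0]
  · intro d
    have key : ∀ j, (P0.image (fun v => v / 16 ^ j)).card + ((P1.image (fun v => v / 16 ^ j)).card +
        ((P2.image (fun v => v / 16 ^ j)).card + ((((R \ P0) \ P1) \ P2).image (fun v => v / 16 ^ j)).card)) ≤
        (R.image (fun v => v / 16 ^ j)).card + 3 := by
      intro j
      have hg : Monotone (fun v : ℕ => v / 16 ^ j) := fun a b hab => Nat.div_le_div_right hab
      have s2 := two_split P2 _ l2 _ hg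
      have s1 := two_split P1 _ l1 _ hg
      have s0 := two_split P0 _ l0 _ hg
      rw [u2] at s2
      rw [u1] at s1
      rw [u0] at s0
      omega
    unfold anc
    rw [← Finset.sum_add_distrib, ← Finset.sum_add_distrib, ← Finset.sum_add_distrib]
    refine (Finset.sum_le_sum (fun j _ => key j)).trans ?_
    rw [Finset.sum_add_distrib, Finset.sum_const, Finset.card_range, smul_eq_mul]
    omega

/-- The families of node sets. -/
def famA (r d : ℕ) : Finset (Finset ℕ) :=
  (powersetCard r (range (r * 16 ^ d))).filter (fun R => anc d R ≤ 2 * r + 3 * (d + 1))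

theorem mem_famA {r d : ℕ} {R : Finset ℕ} : R ∈ famA r d ↔
    (R ⊆ range (r * 16 ^ d) ∧ R.card = r) ∧ anc d R ≤ 2 * r + 3 * (d + 1) := by
  unfold famA
  rw [Finset.mem_filter, Finset.mem_powersetCard]

theorem range_mem_famA (r : ℕ) : range r ∈ famA r 0 := by
  rw [mem_famA]
  refine ⟨⟨?_, Finset.card_range r⟩, ?_⟩
  · rw [pow_zero, Nat.mul_one]
  · unfold anc
    rw [Finset.sum_range_one]
    have : ((range r).image (fun v => v / 16 ^ 0)).card ≤ r := by
      refine Finset.card_image_le.trans ?_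
      rw [Finset.card_range]
    omega

/-- The selection step. -/
theorem select {w r d : ℕ} (hr : r = 4 * w) (hw : 1 ≤ w) {R : Finset ℕ} (hR : R ∈ famA r d) {Q : Finset ℕ}
    (hQ : Q ⊆ kids 16 R) (hQc : Q.card = 8 * r) : ∃ R' ⊆ Q, R' ∈ famA r (d + 1) := by
  classical
  obtain ⟨⟨hR1, hR2⟩, hR3⟩ := mem_famA.1 hR
  obtain ⟨P0, P1, P2, P3, hU, c0, c1, c2, c3, hanc⟩ := pieces R w (by omega)
  have hsum := hanc d
  -- selection from one piece
  have fin : ∀ P : Finset ℕ, P ⊆ R → r ≤ (Q ∩ kids 16 P).card → anc d P ≤ r + 3 * (d + 1) →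
      ∃ R' ⊆ Q, R' ∈ famA r (d + 1) := by
    intro P hP h1 h2
    obtain ⟨R', hR', hc⟩ := Finset.exists_subset_card_eq h1
    refine ⟨R', hR'.trans Finset.inter_subset_left, ?_⟩
    rw [mem_famA]
    refine ⟨⟨?_, hc⟩, ?_⟩
    · intro v hv
      have hv1 := (mem_kids (by norm_num)).1 (hQ (Finset.mem_inter.1 (hR' hv)).1)
      have hv2 := Finset.mem_range.1 (hR1 hv1)
      rw [Finset.mem_range, pow_succ, ← Nat.mul_assoc]
      exact (Nat.div_lt_iff_lt_mul (by norm_num)).1 hv2
    · rw [anc_succ, hc]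
      have h3 : R'.image (fun v => v / 16) ⊆ P := by
        intro u hu
        obtain ⟨v, hv, rfl⟩ := Finset.mem_image.1 hu
        exact (mem_kids (by norm_num)).1 (Finset.mem_inter.1 (hR' hv)).2
      have := anc_mono (d := d) h3
      omega
  -- the numbers of survivors
  have up : ∀ P : Finset ℕ, P.card = w → (Q ∩ kids 16 P).card ≤ 4 * r := by
    intro P hP
    refine (Finset.card_le_card Finset.inter_subset_right).trans ((kids_card 16 P).trans ?_)
    rw [hP]
    omega
  have tot : Q.card ≤ (Q ∩ kids 16 P0).card + ((Q ∩ kids 16 P1).card + ((Q ∩ kids 16 P2).card +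
      (Q ∩ kids 16 P3).card)) := by
    have h1 : Q ⊆ (Q ∩ kids 16 P0) ∪ ((Q ∩ kids 16 P1) ∪ ((Q ∩ kids 16 P2) ∪ (Q ∩ kids 16 P3))) := by
      intro c hc
      have h2 := (mem_kids (by norm_num)).1 (hQ hc)
      rw [hU] at h2
      simp only [Finset.mem_union, Finset.mem_inter] at h2 ⊢
      rcases h2 with h | h | h | h
      · exact Or.inl ⟨hc, (mem_kids (by norm_num)).2 h⟩
      · exact Or.inr (Or.inl ⟨hc, (mem_kids (by norm_num)).2 h⟩)
      · exact Or.inr (Or.inr (Or.inl ⟨hc, (mem_kids (by norm_num)).2 h⟩))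
      · exact Or.inr (Or.inr (Or.inr ⟨hc, (mem_kids (by norm_num)).2 h⟩))
    refine (Finset.card_le_card h1).trans ?_
    refine (Finset.card_union_le _ _).trans (Nat.add_le_add_left ?_ _)
    refine (Finset.card_union_le _ _).trans (Nat.add_le_add_left ?_ _)
    exact Finset.card_union_le _ _
  have s0 : P0 ⊆ R := by rw [hU]; exact Finset.subset_union_left
  have s1 : P1 ⊆ R := by
    rw [hU]; exact Finset.subset_union_left.trans Finset.subset_union_right
  have s2 : P2 ⊆ R := by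
    rw [hU]
    exact (Finset.subset_union_left.trans Finset.subset_union_right).trans Finset.subset_union_right
  have s3 : P3 ⊆ R := by
    rw [hU]
    exact (Finset.subset_union_right.trans Finset.subset_union_right).trans Finset.subset_union_right
  have u0 := up P0 c0
  have u1 := up P1 c1
  have u2 := up P2 c2
  have u3 := up P3 c3
  have f0 := fin P0 s0
  have f1 := fin P1 s1
  have f2 := fin P2 s2
  have f3 := fin P3 s3
  by_cases g0 : r ≤ (Q ∩ kids 16 P0).card ∧ anc d P0 ≤ r + 3 * (d + 1)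
  · exact f0 g0.1 g0.2
  by_cases g1 : r ≤ (Q ∩ kids 16 P1).card ∧ anc d P1 ≤ r + 3 * (d + 1)
  · exact f1 g1.1 g1.2
  by_cases g2 : r ≤ (Q ∩ kids 16 P2).card ∧ anc d P2 ≤ r + 3 * (d + 1)
  · exact f2 g2.1 g2.2
  by_cases g3 : r ≤ (Q ∩ kids 16 P3).card ∧ anc d P3 ≤ r + 3 * (d + 1)
  · exact f3 g3.1 g3.2
  exfalso
  omega

/-- The weighted count of node sets. -/
theorem weight_count (r d : ℕ) :
    ∑ R ∈ (range (r * 16 ^ d)).powerset, ((1 : ℝ) / 2 ^ 16) ^ (anc d R) ≤ 2 ^ r := by
  classical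
  induction d with
  | zero =>
    have h1 : ∀ R ∈ (range (r * 16 ^ 0)).powerset, ((1 : ℝ) / 2 ^ 16) ^ (anc 0 R) ≤ 1 := by
      intro R _
      exact pow_le_one₀ (by positivity) (by norm_num)
    refine (Finset.sum_le_card_nsmul _ _ 1 h1).trans ?_
    rw [Finset.card_powerset, Finset.card_range]
    simp
  | succ d ih =>
    refine le_trans ?_ ih
    have hmaps : ∀ R ∈ (range (r * 16 ^ (d + 1))).powerset,
        R.image (fun v => v / 16) ∈ (range (r * 16 ^ d)).powerset := by
      intro R hR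
      rw [Finset.mem_powerset] at hR ⊢
      intro u hu
      obtain ⟨v, hv, rfl⟩ := Finset.mem_image.1 hu
      have := Finset.mem_range.1 (hR hv)
      rw [Finset.mem_range]
      rw [pow_succ, ← Nat.mul_assoc] at this
      exact (Nat.div_lt_iff_lt_mul (by norm_num)).2 this
    rw [← Finset.sum_fiberwise_of_maps_to hmaps]
    refine Finset.sum_le_sum (fun R1 _ => ?_)
    have h1 : ∀ R ∈ (range (r * 16 ^ (d + 1))).powerset.filter (fun R => R.image (fun v => v / 16) = R1),
        ((1 : ℝ) / 2 ^ 16) ^ (anc (d + 1) R) ≤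
          ((1 : ℝ) / 2 ^ 16) ^ (anc d R1) * ((1 : ℝ) / 2 ^ 16) ^ R1.card := by
      intro R hR
      have h2 := (Finset.mem_filter.1 hR).2
      rw [anc_succ, h2, pow_add, mul_comm]
      refine mul_le_mul_of_nonneg_left ?_ (by positivity)
      refine pow_le_pow_of_le_one (by positivity) (by norm_num) ?_
      rw [← h2]
      exact Finset.card_image_le
    refine (Finset.sum_le_card_nsmul _ _ _ h1).trans ?_
    rw [nsmul_eq_mul]
    have h3 : ((range (r * 16 ^ (d + 1))).powerset.filter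
        (fun R => R.image (fun v => v / 16) = R1)).card ≤ 2 ^ (16 * R1.card) := by
      have h4 : (range (r * 16 ^ (d + 1))).powerset.filter (fun R => R.image (fun v => v / 16) = R1) ⊆
          (kids 16 R1).powerset := by
        intro R hR
        have h2 := (Finset.mem_filter.1 hR).2
        rw [Finset.mem_powerset]
        intro v hv
        rw [mem_kids (by norm_num), ← h2]
        exact Finset.mem_image_of_mem _ hv
      refine (Finset.card_le_card h4).trans ?_
      rw [Finset.card_powerset]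
      exact Nat.pow_le_pow_right (by norm_num) (kids_card 16 R1)
    have h5 : (((range (r * 16 ^ (d + 1))).powerset.filter
        (fun R => R.image (fun v => v / 16) = R1)).card : ℝ) ≤ 2 ^ (16 * R1.card) := by exact_mod_cast h3
    have h6 : ((2 : ℝ) ^ (16 * R1.card)) * ((1 : ℝ) / 2 ^ 16) ^ R1.card = 1 := by
      rw [pow_mul, ← mul_pow]
      norm_num
    calc (((range (r * 16 ^ (d + 1))).powerset.filter
          (fun R => R.image (fun v => v / 16) = R1)).card : ℝ) *
          (((1 : ℝ) / 2 ^ 16) ^ (anc d R1) * ((1 : ℝ) / 2 ^ 16) ^ R1.card)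
        ≤ 2 ^ (16 * R1.card) * (((1 : ℝ) / 2 ^ 16) ^ (anc d R1) * ((1 : ℝ) / 2 ^ 16) ^ R1.card) :=
          mul_le_mul_of_nonneg_right h5 (by positivity)
      _ = ((1 : ℝ) / 2 ^ 16) ^ (anc d R1) * (2 ^ (16 * R1.card) * ((1 : ℝ) / 2 ^ 16) ^ R1.card) := by ring
      _ = ((1 : ℝ) / 2 ^ 16) ^ (anc d R1) := by rw [h6, mul_one]

theorem famA_card (r d : ℕ) : (famA r d).card ≤ 2 ^ (33 * r + 48 * (d + 1)) := by
  classical
  have h1 := weight_count r d
  have h2 : ((famA r d).card : ℝ) * ((1 : ℝ) / 2 ^ 16) ^ (2 * r + 3 * (d + 1)) ≤ 2 ^ r := by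
    refine le_trans ?_ h1
    rw [← nsmul_eq_mul]
    refine (Finset.card_nsmul_le_sum (famA r d) (fun R => ((1 : ℝ) / 2 ^ 16) ^ (anc d R)) _ ?_).trans ?_
    · intro R hR
      exact pow_le_pow_of_le_one (by positivity) (by norm_num) (mem_famA.1 hR).2
    · refine Finset.sum_le_sum_of_subset_of_nonneg ?_ (fun _ _ _ => by positivity)
      intro R hR
      rw [Finset.mem_powerset]
      exact (mem_famA.1 hR).1.1
  have h3 : ((famA r d).card : ℝ) ≤ 2 ^ (33 * r + 48 * (d + 1)) := by
    have h4 : ((1 : ℝ) / 2 ^ 16) ^ (2 * r + 3 * (d + 1)) * 2 ^ (16 * (2 * r + 3 * (d + 1))) = 1 := by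
      rw [pow_mul, ← mul_pow]
      norm_num
    calc ((famA r d).card : ℝ) = ((famA r d).card : ℝ) * (((1 : ℝ) / 2 ^ 16) ^ (2 * r + 3 * (d + 1)) *
          2 ^ (16 * (2 * r + 3 * (d + 1)))) := by rw [h4, mul_one]
      _ = ((famA r d).card : ℝ) * ((1 : ℝ) / 2 ^ 16) ^ (2 * r + 3 * (d + 1)) *
          2 ^ (16 * (2 * r + 3 * (d + 1))) := by ring
      _ ≤ 2 ^ r * 2 ^ (16 * (2 * r + 3 * (d + 1))) := mul_le_mul_of_nonneg_right h2 (by positivity)
      _ = 2 ^ (33 * r + 48 * (d + 1)) := by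
        rw [← pow_add]
        congr 1
        ring
  exact_mod_cast h3

end Pool.Agent.Work.MP_833881_lc
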