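import Pool.Agent.Work.MP_833881_lc.Gen

/-!
# The bucket-tree refutation of `PHP_n^m` (combinatorial form)
-/

namespace Pool.Agent.Work.MP_833881_lc

open Finset

/-- The variables `x_{ij}` with the level `e` bucket `⌊i / ρ^e⌋` of `i` in `Q` and `j ≥ t`. -/
def bvars (m n ρ e : ℕ) (Q : Finset ℕ) (t : ℕ) : Finset (Fin m × Fin n) :=
  univ.filter (fun v => v.1.val / ρ ^ e ∈ Q ∧ t ≤ v.2.val)

/-- The positive clause of `bvars`. -/
def bcl (m n ρ e : ℕ) (Q : Finset ℕ) (t : ℕ) : Line (Fin m × Fin n) := pos (bvars m n ρ e Q t)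

theorem mem_bvars {m n ρ e : ℕ} {Q : Finset ℕ} {t : ℕ} {v : Fin m × Fin n} :
    v ∈ bvars m n ρ e Q t ↔ v.1.val / ρ ^ e ∈ Q ∧ t ≤ v.2.val := by
  simp [bvars]

theorem bcl_clause (m n ρ e : ℕ) (Q : Finset ℕ) (t : ℕ) : IsClause (bcl m n ρ e Q t) := pos_clause _

theorem bcl_empty {m n ρ e : ℕ} {Q : Finset ℕ} {t : ℕ} (h : n ≤ t) : bcl m n ρ e Q t = ∅ := by
  have : bvars m n ρ e Q t = ∅ := by
    apply Finset.eq_empty_of_forall_notMem
    intro v hv
    have := (mem_bvars.1 hv).2
    have h2 := v.2.isLt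
    omega
  unfold bcl
  rw [this]
  rfl

/-- One step: from the clauses of all `Q ∖ {q}` at hole `t` to the clause of `Q` at hole `t + 1`. -/
theorem gen_step {m n : ℕ} (ρ e : ℕ) (Q : Finset ℕ) (hQ : 2 ≤ Q.card) (t : ℕ) :
    Gen (PHP m n) {D | ∃ q ∈ Q, D = bcl m n ρ e (Q.erase q) t} {bcl m n ρ e Q (t + 1)}
      (3 * (m + 1) ^ 2) := by
  classical
  obtain ⟨q1, hq1⟩ : Q.Nonempty := by
    rw [← Finset.card_pos]
    omega
  by_cases htn : n ≤ t
  · refine (Gen.refl ?_).mono subset_rfl subset_rfl (Nat.zero_le _)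
    intro D hD
    refine ⟨q1, hq1, ?_⟩
    rw [hD, bcl_empty htn, bcl_empty (htn.trans (Nat.le_succ t))]
  · have ht : t < n := not_le.1 htn
    set j0 : Fin n := ⟨t, ht⟩ with hj0
    set B : Set (Line (Fin m × Fin n)) := {D | ∃ q ∈ Q, D = bcl m n ρ e (Q.erase q) t} with hB
    set T : Line (Fin m × Fin n) := bcl m n ρ e Q (t + 1) with hT
    have hTc : IsClause T := bcl_clause _ _ _ _ _ _
    -- variables of hole `t` with bucket in `Q.erase q`
    let S : ℕ → Finset (Fin m × Fin n) := fun q =>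
      (univ.filter (fun i : Fin m => i.val / ρ ^ e ∈ Q.erase q)).image (fun i => (i, j0))
    have hScard : ∀ q, (S q).card ≤ m := by
      intro q
      refine Finset.card_image_le.trans ((Finset.card_filter_le _ _).trans ?_)
      simp
    have hSmem : ∀ q (v : Fin m × Fin n), v ∈ S q ↔ v.1.val / ρ ^ e ∈ Q.erase q ∧ v.2 = j0 := by
      intro q v
      constructor
      · intro h
        obtain ⟨i, hi, rfl⟩ := Finset.mem_image.1 h
        exact ⟨(Finset.mem_filter.1 hi).2, rfl⟩
      · rintro ⟨h1, h2⟩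
        exact Finset.mem_image.2 ⟨v.1, Finset.mem_filter.2 ⟨Finset.mem_univ _, h1⟩, by rw [← h2]⟩
    have hcover : ∀ q, bcl m n ρ e (Q.erase q) t ⊆ T ∪ pos (S q) := by
      intro q u hu
      obtain ⟨v, hv, rfl⟩ := Finset.mem_image.1 hu
      obtain ⟨h1, h2⟩ := mem_bvars.1 hv
      by_cases h3 : v.2 = j0
      · exact Finset.mem_union_right _ (Finset.mem_image.2 ⟨v, (hSmem q v).2 ⟨h1, h3⟩, rfl⟩)
      · refine Finset.mem_union_left _ (Finset.mem_image.2 ⟨v, mem_bvars.2 ⟨Finset.mem_of_mem_erase h1, ?_⟩, rfl⟩)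
        have : v.2.val ≠ t := fun h => h3 (Fin.ext h)
        omega
    -- step 1
    have step1 : ∀ i : Fin m, i.val / ρ ^ e ∈ Q →
        Gen (PHP m n) B {insert {((i, j0), false)} T} (3 * m + 1) := by
      intro i hi
      set q := i.val / ρ ^ e with hq
      set E : Line (Fin m × Fin n) := insert {((i, j0), false)} T with hE
      have hEc : IsClause E := hTc.insert _
      -- the side lines
      have hside : ∀ v ∈ S q, Gen (PHP m n) B {insert {(v, false)} E} 2 := by
        intro v hv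
        obtain ⟨h1, h2⟩ := (hSmem q v).1 hv
        have hne : i ≠ v.1 := by
          intro h
          rw [← h] at h1
          exact (Finset.mem_erase.1 h1).1 hq.symm
        have hax : exclAx (i, j0) (v.1, j0) ∈ PHP m n := Or.inr ⟨i, v.1, j0, hne, rfl⟩
        have hcl : IsClause (exclAx (i, j0) (v.1, j0)) := by
          intro u hu
          rcases Finset.mem_insert.1 hu with rfl | hu
          · simp
          · rw [Finset.mem_singleton.1 hu]; simp
        refine Gen.trans (Gen.single hcl (Infer.ax hax)) (Gen.single (hEc.insert _)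
          (Infer.weak (A := exclAx (i, j0) (v.1, j0)) (Or.inr rfl) ?_))
        intro u hu
        rcases Finset.mem_insert.1 hu with rfl | hu
        · exact Finset.mem_insert_of_mem (Finset.mem_insert_self _ _)
        · rw [Finset.mem_singleton.1 hu]
          have : v = (v.1, j0) := by rw [← h2]
          rw [← this]
          exact Finset.mem_insert_self _ _
      have h3 := Gen.biUnion (S q) (fun v => {insert {(v, false)} E}) 2 hside
      have h4 : Gen (PHP m n) B {E ∪ pos (S q)} 1 := by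
        refine Gen.single (hEc.union (pos_clause _))
          (Infer.weak (A := bcl m n ρ e (Q.erase q) t) ⟨q, hi, rfl⟩ ?_)
        intro u hu
        rcases Finset.mem_union.1 (hcover q hu) with h | h
        · exact Finset.mem_union_left _ (Finset.mem_insert_of_mem h)
        · exact Finset.mem_union_right _ h
      have h5 : Gen (PHP m n) (B ∪ ({D | ∃ v ∈ S q, D ∈ ({insert {(v, false)} E} : Set _)} ∪
          {E ∪ pos (S q)})) {E} (S q).card := by
        refine gen_resolve hEc (S q) (fun v hv => Or.inr (Or.inl ⟨v, hv, rfl⟩)) (Or.inr (Or.inr rfl))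
      refine (Gen.trans (Gen.union h3 h4) h5).mono subset_rfl subset_rfl ?_
      have := hScard q
      omega
    -- step 2
    have h6 := Gen.biUnion (S q1) (fun v => {insert {(v, false)} T}) (3 * m + 1) (by
      intro v hv
      obtain ⟨h1, h2⟩ := (hSmem q1 v).1 hv
      have h3 := step1 v.1 (Finset.mem_of_mem_erase h1)
      have : v = (v.1, j0) := by rw [← h2]
      rwa [← this] at h3)
    have h7 : Gen (PHP m n) B {T ∪ pos (S q1)} 1 :=
      Gen.single (hTc.union (pos_clause _))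
        (Infer.weak (A := bcl m n ρ e (Q.erase q1) t) ⟨q1, hq1, rfl⟩ (hcover q1))
    have h8 : Gen (PHP m n) (B ∪ ({D | ∃ v ∈ S q1, D ∈ ({insert {(v, false)} T} : Set _)} ∪
        {T ∪ pos (S q1)})) {T} (S q1).card :=
      gen_resolve hTc (S q1) (fun v hv => Or.inr (Or.inl ⟨v, hv, rfl⟩)) (Or.inr (Or.inr rfl))
    refine (Gen.trans (Gen.union h6 h7) h8).mono subset_rfl subset_rfl ?_
    have h9 := hScard q1
    have h10 : (S q1).card * (3 * m + 1) ≤ m * (3 * m + 1) := Nat.mul_le_mul_right _ h9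
    nlinarith

/-- A block of steps. -/
theorem gen_block {m n : ℕ} (ρ e : ℕ) (W : Finset ℕ) (r' : ℕ) (hr' : 1 ≤ r') (t0 h : ℕ) :
    Gen (PHP m n) {D | ∃ Q ∈ powersetCard r' W, D = bcl m n ρ e Q t0}
      {D | ∃ Q ∈ powersetCard (r' + h) W, D = bcl m n ρ e Q (t0 + h)}
      (h * (2 ^ W.card * (3 * (m + 1) ^ 2))) := by
  classical
  induction h with
  | zero => exact (Gen.refl subset_rfl).mono subset_rfl subset_rfl (Nat.zero_le _)
  | succ h ih =>
    have h1 : Gen (PHP m n) ({D | ∃ Q ∈ powersetCard r' W, D = bcl m n ρ e Q t0} ∪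
        {D | ∃ Q ∈ powersetCard (r' + h) W, D = bcl m n ρ e Q (t0 + h)})
        {D | ∃ Q ∈ powersetCard (r' + (h + 1)) W, D = bcl m n ρ e Q (t0 + (h + 1))}
        ((powersetCard (r' + (h + 1)) W).card * (3 * (m + 1) ^ 2)) := by
      refine (Gen.biUnion (powersetCard (r' + (h + 1)) W)
        (fun Q => {bcl m n ρ e Q (t0 + (h + 1))}) (3 * (m + 1) ^ 2) ?_).mono subset_rfl ?_ le_rfl
      · intro Q hQ
        obtain ⟨hQ1, hQ2⟩ := Finset.mem_powersetCard.1 hQ
        have h2 := gen_step (m := m) (n := n) ρ e Q (by omega) (t0 + h)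
        refine h2.mono ?_ (by rw [Nat.add_assoc]) le_rfl
        rintro D ⟨q, hq, rfl⟩
        right
        refine ⟨Q.erase q, ?_, rfl⟩
        rw [Finset.mem_powersetCard]
        refine ⟨(Finset.erase_subset _ _).trans hQ1, ?_⟩
        rw [Finset.card_erase_of_mem hq]
        omega
      · rintro D ⟨Q, hQ, rfl⟩
        exact ⟨Q, hQ, rfl⟩
    refine (Gen.trans ih h1).mono subset_rfl subset_rfl ?_
    have h3 : (powersetCard (r' + (h + 1)) W).card ≤ 2 ^ W.card := by
      rw [← Finset.card_powerset]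
      exact Finset.card_le_card (fun s hs => Finset.mem_powerset.2 (Finset.mem_powersetCard.1 hs).1)
    have h4 : (powersetCard (r' + (h + 1)) W).card * (3 * (m + 1) ^ 2) ≤
        2 ^ W.card * (3 * (m + 1) ^ 2) := Nat.mul_le_mul_right _ h3
    nlinarith

/-- The children of the buckets in `R`. -/
def kids (ρ : ℕ) (R : Finset ℕ) : Finset ℕ := R.biUnion (fun a => (range ρ).image (fun c => a * ρ + c))

theorem mem_kids {ρ : ℕ} (hρ : 0 < ρ) {R : Finset ℕ} {c : ℕ} : c ∈ kids ρ R ↔ c / ρ ∈ R := by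
  unfold kids
  rw [Finset.mem_biUnion]
  constructor
  · rintro ⟨a, ha, hc⟩
    obtain ⟨d, hd, rfl⟩ := Finset.mem_image.1 hc
    have hd' := Finset.mem_range.1 hd
    rw [Nat.mul_comm, Nat.mul_add_div hρ, Nat.div_eq_of_lt hd', Nat.add_zero]
    exact ha
  · intro h
    refine ⟨c / ρ, h, Finset.mem_image.2 ⟨c % ρ, Finset.mem_range.2 (Nat.mod_lt _ hρ), ?_⟩⟩
    rw [Nat.mul_comm]
    exact Nat.div_add_mod c ρ

theorem kids_card (ρ : ℕ) (R : Finset ℕ) : (kids ρ R).card ≤ ρ * R.card := by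
  refine Finset.card_biUnion_le.trans ?_
  refine (Finset.sum_le_card_nsmul R _ ρ ?_).trans ?_
  · intro a ha
    exact Finset.card_image_le.trans (by rw [Finset.card_range])
  · rw [smul_eq_mul, Nat.mul_comm]

theorem bcl_kids {m n ρ : ℕ} (hρ : 0 < ρ) (e : ℕ) (R : Finset ℕ) (t : ℕ) :
    bcl m n ρ e (kids ρ R) t = bcl m n ρ (e + 1) R t := by
  unfold bcl bvars
  congr 1
  refine Finset.filter_congr ?_
  intro v _
  rw [mem_kids hρ, Nat.div_div_eq_div_mul, ← pow_succ]

/-- The families of bucket sets. -/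
def fam (ρ r r' : ℕ) : ℕ → Finset (Finset ℕ)
  | 0 => powersetCard r' (range r)
  | d + 1 => (fam ρ r r' d).biUnion (fun R => powersetCard r' (kids ρ R))

theorem fam_mem {ρ r r' : ℕ} (hρ : 0 < ρ) (d : ℕ) {R : Finset ℕ} (h : R ∈ fam ρ r r' d) :
    R.card = r' ∧ ∀ a ∈ R, a < r * ρ ^ d := by
  induction d generalizing R with
  | zero =>
    obtain ⟨h1, h2⟩ := Finset.mem_powersetCard.1 h
    refine ⟨h2, fun a ha => ?_⟩
    rw [pow_zero, Nat.mul_one]
    exact Finset.mem_range.1 (h1 ha)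
  | succ d ih =>
    obtain ⟨R', hR', hR⟩ := Finset.mem_biUnion.1 h
    obtain ⟨h1, h2⟩ := Finset.mem_powersetCard.1 hR
    refine ⟨h2, fun a ha => ?_⟩
    have h3 := (ih hR').2 _ ((mem_kids hρ).1 (h1 ha))
    rw [pow_succ, ← Nat.mul_assoc]
    exact (Nat.div_lt_iff_lt_mul hρ).1 h3

theorem fam_card {ρ r r' : ℕ} (hρ : 0 < ρ) (hr : ρ * r' ≤ r) (d : ℕ) :
    (fam ρ r r' d).card ≤ (r.choose r') ^ (d + 1) := by
  induction d with
  | zero =>
    show (powersetCard r' (range r)).card ≤ _
    rw [Finset.card_powersetCard, Finset.card_range, Nat.zero_add, pow_one]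
  | succ d ih =>
    refine Finset.card_biUnion_le.trans ?_
    refine (Finset.sum_le_card_nsmul _ _ (r.choose r') ?_).trans ?_
    · intro R hR
      rw [Finset.card_powersetCard]
      refine Nat.choose_le_choose _ ((kids_card ρ R).trans ?_)
      rw [(fam_mem hρ d hR).1]
      exact hr
    · rw [smul_eq_mul, pow_succ (r.choose r') (d + 1)]
      exact Nat.mul_le_mul_right _ ih

/-- All levels. -/
theorem gen_level {m n ρ r' y : ℕ} (hρ : 0 < ρ) (hr' : 1 ≤ r') (hm : ρ * r' * ρ ^ y ≤ m) (e : ℕ)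
    (he : e ≤ y) :
    Gen (PHP m n) ∅ {D | ∃ R ∈ fam ρ (ρ * r') r' (y - e), D = bcl m n ρ e R (e * (ρ * r' - r'))}
      (((ρ * r').choose r') ^ (y + 1) * (2 + e * ((ρ * r' - r') * (2 ^ (ρ * r') * (3 * (m + 1) ^ 2))))) := by
  classical
  have hC : 1 ≤ (ρ * r').choose r' := Nat.choose_pos (by nlinarith)
  have hfam : ∀ d ≤ y, (fam ρ (ρ * r') r' d).card ≤ ((ρ * r').choose r') ^ (y + 1) := by
    intro d hd
    exact (fam_card hρ le_rfl d).trans (Nat.pow_le_pow_right hC (by omega))
  induction e with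
  | zero =>
    have h1 := Gen.biUnion (F := PHP m n) (B := ∅) (fam ρ (ρ * r') r' y)
      (fun R => {bcl m n ρ 0 R 0}) 2 (by
      intro R hR
      obtain ⟨h2, h3⟩ := fam_mem hρ y hR
      obtain ⟨a, ha⟩ : R.Nonempty := by
        rw [← Finset.card_pos]; omega
      have ham : a < m := lt_of_lt_of_le (h3 a ha) hm
      have hcl : IsClause (pigeonAx (m := m) (n := n) ⟨a, ham⟩) :=
        IsClause.image univ (fun j => (((⟨a, ham⟩ : Fin m), j), true))
      refine Gen.trans (Gen.single hcl (Infer.ax (Or.inl ⟨⟨a, ham⟩, rfl⟩)))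
        (Gen.single (bcl_clause _ _ _ _ _ _) (Infer.weak (A := pigeonAx (m := m) (n := n) ⟨a, ham⟩) (Or.inr rfl) ?_))
      intro u hu
      obtain ⟨j, -, rfl⟩ := Finset.mem_image.1 hu
      refine Finset.mem_image.2 ⟨((⟨a, ham⟩ : Fin m), j), mem_bvars.2 ⟨?_, Nat.zero_le _⟩, rfl⟩
      simpa using ha)
    refine h1.mono subset_rfl ?_ ?_
    · rintro D ⟨R, hR, rfl⟩
      refine ⟨R, hR, ?_⟩
      rw [Nat.zero_mul]
      rfl
    · rw [Nat.zero_mul, Nat.add_zero]
      exact Nat.mul_le_mul_right _ (hfam y le_rfl)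
  | succ e ih =>
    have h1 := ih (by omega)
    have h2 := Gen.biUnion (F := PHP m n)
      (B := ∅ ∪ {D | ∃ R ∈ fam ρ (ρ * r') r' (y - e), D = bcl m n ρ e R (e * (ρ * r' - r'))})
      (fam ρ (ρ * r') r' (y - (e + 1)))
      (fun R => {bcl m n ρ (e + 1) R ((e + 1) * (ρ * r' - r'))})
      ((ρ * r' - r') * (2 ^ (ρ * r') * (3 * (m + 1) ^ 2))) (by
      intro R hR
      have hRc := (fam_mem hρ _ hR).1
      have hsub : y - e = (y - (e + 1)) + 1 := by omega
      have h3 := gen_block (m := m) (n := n) ρ e (kids ρ R) r' hr' (e * (ρ * r' - r')) (ρ * r' - r')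
      have hkc : (kids ρ R).card = ρ * r' := by
        unfold kids
        rw [Finset.card_biUnion]
        · rw [Finset.sum_const_nat (m := ρ), hRc, Nat.mul_comm]
          intro a ha
          rw [Finset.card_image_of_injective _ (fun c c' hcc => by
            have : a * ρ + c = a * ρ + c' := hcc
            omega), Finset.card_range]
        · intro a ha a' ha' hne
          rw [Function.onFun, Finset.disjoint_left]
          intro c hc hc'
          obtain ⟨d, hd, hd2⟩ := Finset.mem_image.1 hc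
          obtain ⟨d', hd', hd2'⟩ := Finset.mem_image.1 hc'
          have e1 : c / ρ = a := by
            rw [← hd2, Nat.mul_comm, Nat.mul_add_div hρ, Nat.div_eq_of_lt (Finset.mem_range.1 hd),
              Nat.add_zero]
          have e2 : c / ρ = a' := by
            rw [← hd2', Nat.mul_comm, Nat.mul_add_div hρ, Nat.div_eq_of_lt (Finset.mem_range.1 hd'),
              Nat.add_zero]
          exact hne (e1.symm.trans e2)
      refine h3.mono ?_ ?_ ?_
      · rintro D ⟨Q, hQ, rfl⟩
        right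
        refine ⟨Q, ?_, rfl⟩
        rw [hsub]
        exact Finset.mem_biUnion.2 ⟨R, hR, hQ⟩
      · intro D hD
        have hD' : D = bcl m n ρ (e + 1) R ((e + 1) * (ρ * r' - r')) := hD
        refine ⟨kids ρ R, ?_, ?_⟩
        · rw [Finset.mem_powersetCard]
          refine ⟨subset_rfl, ?_⟩
          rw [hkc]
          have : r' ≤ ρ * r' := by nlinarith
          omega
        · rw [hD', bcl_kids hρ, Nat.succ_mul]
      · rw [hkc])
    refine (Gen.trans h1 h2).mono subset_rfl ?_ ?_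
    · rintro D ⟨R, hR, rfl⟩
      exact ⟨R, hR, rfl⟩
    · have h4 := hfam (y - (e + 1)) (by omega)
      have h5 : (fam ρ (ρ * r') r' (y - (e + 1))).card *
          ((ρ * r' - r') * (2 ^ (ρ * r') * (3 * (m + 1) ^ 2))) ≤
          ((ρ * r').choose r') ^ (y + 1) * ((ρ * r' - r') * (2 ^ (ρ * r') * (3 * (m + 1) ^ 2))) :=
        Nat.mul_le_mul_right _ h4
      generalize (ρ * r' - r') * (2 ^ (ρ * r') * (3 * (m + 1) ^ 2)) = K at *
      generalize ((ρ * r').choose r') ^ (y + 1) = C at *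
      nlinarith

/-- A refutation from `Gen`. -/
theorem refutation_of_gen {V : Type} [DecidableEq V] {F : Set (Line V)} {N : ℕ}
    (h : Gen F ∅ {(∅ : Line V)} N) : ∃ π : List (Line V), IsRefutation 1 F π ∧ π.length ≤ N := by
  obtain ⟨ρ, h1, h2, h3, h4⟩ := h
  refine ⟨ρ, ⟨?_, ?_, ?_⟩, h4⟩
  · intro D hD t ht
    have := h2 D hD t ht
    omega
  · intro pre D suf he
    refine (h1 pre D suf he).mono ?_
    intro E hE
    rcases hE with h | h
    · exact absurd h (Set.notMem_empty _)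
    · exact h
  · rcases h3 ∅ rfl with h | h
    · exact absurd h (Set.notMem_empty _)
    · exact h

/-- The refutation with its number of lines. -/
theorem upper_comb {m n ρ r' y : ℕ} (hρ : 0 < ρ) (hr' : 1 ≤ r') (hm : ρ * r' * ρ ^ y ≤ m)
    (hn : n ≤ (y + 1) * (ρ * r' - r')) :
    ∃ π : List (Line (Fin m × Fin n)), IsRefutation 1 (PHP m n) π ∧
      π.length ≤ ((ρ * r').choose r') ^ (y + 1) *
        (2 + (y + 1) * ((ρ * r' - r') * (2 ^ (ρ * r') * (3 * (m + 1) ^ 2)))) := by
  classical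
  have hC : 1 ≤ ((ρ * r').choose r') ^ (y + 1) := Nat.one_le_pow _ _ (Nat.choose_pos (by nlinarith))
  have h1 := gen_level (m := m) (n := n) hρ hr' hm y le_rfl
  rw [Nat.sub_self] at h1
  have h2 := gen_block (m := m) (n := n) ρ y (range (ρ * r')) r' hr' (y * (ρ * r' - r')) (ρ * r' - r')
  have h3 : Gen (PHP m n) (∅ ∪ {D | ∃ R ∈ fam ρ (ρ * r') r' 0, D = bcl m n ρ y R (y * (ρ * r' - r'))})
      {(∅ : Line (Fin m × Fin n))} ((ρ * r' - r') * (2 ^ (ρ * r') * (3 * (m + 1) ^ 2))) := by
    refine h2.mono ?_ ?_ ?_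
    · rintro D ⟨Q, hQ, rfl⟩
      exact Or.inr ⟨Q, hQ, rfl⟩
    · intro D hD
      refine ⟨range (ρ * r'), ?_, ?_⟩
      · rw [Finset.mem_powersetCard]
        refine ⟨subset_rfl, ?_⟩
        rw [Finset.card_range]
        have : r' ≤ ρ * r' := by nlinarith
        omega
      · have h5 : n ≤ y * (ρ * r' - r') + (ρ * r' - r') := by
          rw [← Nat.succ_mul]; exact hn
        rw [bcl_empty h5]
        exact hD
    · rw [Finset.card_range]
  obtain ⟨π, h4, h5⟩ := refutation_of_gen (Gen.trans h1 h3)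
  refine ⟨π, h4, h5.trans ?_⟩
  generalize (ρ * r' - r') * (2 ^ (ρ * r') * (3 * (m + 1) ^ 2)) = K at *
  generalize ((ρ * r').choose r') ^ (y + 1) = C at *
  nlinarith

/-- The size of a resolution refutation is at most its length times `1 + 2 m n`. -/
theorem size_le {m n : ℕ} {F : Set (Line (Fin m × Fin n))} {π : List (Line (Fin m × Fin n))}
    (h : IsRefutation 1 F π) : size π ≤ π.length * (1 + 2 * (m * n)) := by
  classical
  have h1 : ∀ D ∈ π, 1 + ∑ t ∈ D, t.card ≤ 1 + 2 * (m * n) := by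
    intro D hD
    have h2 : ∀ t ∈ D, t.card = 1 := fun t ht => by
      have := h.dnf D hD t ht
      omega
    rw [Finset.sum_congr rfl h2, Finset.sum_const, smul_eq_mul, Nat.mul_one]
    have h3 : D ⊆ univ.image (fun l : Lit (Fin m × Fin n) => ({l} : Term (Fin m × Fin n))) := by
      intro t ht
      obtain ⟨l, hl⟩ := Finset.card_eq_one.1 (h2 t ht)
      exact Finset.mem_image.2 ⟨l, Finset.mem_univ _, hl.symm⟩
    have h4 := (Finset.card_le_card h3).trans Finset.card_image_le
    have h5 : (univ : Finset (Lit (Fin m × Fin n))).card = m * n * 2 := by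
      simp [Finset.card_univ, Fintype.card_prod]
    omega
  unfold size
  have h6 := List.sum_le_card_nsmul (π.map (fun D => 1 + ∑ t ∈ D, t.card)) (1 + 2 * (m * n)) (by
    intro x hx
    obtain ⟨D, hD, rfl⟩ := List.mem_map.1 hx
    exact h1 D hD)
  rw [List.length_map, smul_eq_mul] at h6
  exact h6

end Pool.Agent.Work.MP_833881_lc
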