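import Mathlib

/-!
# The systems `R(k)` and the pigeonhole principles

Literals, terms (conjunctions), lines (`DNF`s), the rules of `R(k)`, refutations, size, and the clauses of
`PHP_n^m` and `onto-FPHP_n^m`.
-/

namespace Pool.Agent.Work.MP_833881_lc

open Finset

/-- A literal over the variable set `V`: `(v, true)` is `v`, `(v, false)` is `¬ v`. -/
abbrev Lit (V : Type) := V × Bool

/-- A term: the conjunction of a finite set of literals. -/
abbrev Term (V : Type) := Finset (Lit V)

/-- A line: the disjunction of a finite set of terms. -/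
abbrev Line (V : Type) := Finset (Term V)

variable {V : Type} [DecidableEq V]

/-- The negation of a literal. -/
def neg (l : Lit V) : Lit V := (l.1, !l.2)

/-- The negation of the term `t` as a line: the clause of the negated literals of `t`. -/
def negTerm (t : Term V) : Line V := t.image (fun l => {neg l})

/-- `Infer F S D`: the line `D` is an axiom of `F` or follows from lines in `S` by one application of weakening,
`∧`-introduction or cut. -/
inductive Infer (F : Set (Line V)) (S : Set (Line V)) : Line V → Prop
  | ax {D : Line V} : D ∈ F → Infer F S D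
  | weak {A D : Line V} : A ∈ S → A ⊆ D → Infer F S D
  | andI {C C' : Line V} {s t : Term V} : insert s C ∈ S → insert t C' ∈ S →
      Infer F S (insert (s ∪ t) (C ∪ C'))
  | cut {C C' : Line V} {t : Term V} : insert t C ∈ S → C' ∪ negTerm t ∈ S → Infer F S (C ∪ C')

/-- `π` is an `R(k)` refutation of `F`: all lines are `k`-DNFs (disjunctions of nonempty terms with at most `k`
literals), every line is an axiom or follows from earlier lines of `π` by one rule, and the empty
disjunction occurs in `π`. For `k = 1` this is resolution (with weakening). -/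
structure IsRefutation (k : ℕ) (F : Set (Line V)) (π : List (Line V)) : Prop where
  dnf : ∀ D ∈ π, ∀ t ∈ D, 1 ≤ t.card ∧ t.card ≤ k
  step : ∀ (pre : List (Line V)) (D : Line V) (suf : List (Line V)), π = pre ++ D :: suf →
    Infer F {E | E ∈ pre} D
  bot : ∅ ∈ π

/-- The size of a refutation: the number of lines plus the number of occurrences of literals. -/
def size (π : List (Line V)) : ℕ := (π.map (fun D => 1 + ∑ t ∈ D, t.card)).sum

/-- The pigeon axiom of pigeon `i`: `⋁_j x_{ij}`. -/
def pigeonAx {m n : ℕ} (i : Fin m) : Line (Fin m × Fin n) :=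
  univ.image (fun j : Fin n => {((i, j), true)})

/-- The surjectivity axiom of hole `j`: `⋁_i x_{ij}`. -/
def ontoAx {m n : ℕ} (j : Fin n) : Line (Fin m × Fin n) :=
  univ.image (fun i : Fin m => {((i, j), true)})

/-- The clause `¬ e ∨ ¬ f`. -/
def exclAx {m n : ℕ} (e f : Fin m × Fin n) : Line (Fin m × Fin n) := {{(e, false)}, {(f, false)}}

/-- The clauses of `PHP_n^m` (not functional, not onto): pigeon axioms and hole axioms. -/
def PHP (m n : ℕ) : Set (Line (Fin m × Fin n)) :=
  {D | (∃ i, D = pigeonAx i) ∨ ∃ (i i' : Fin m) (j : Fin n), i ≠ i' ∧ D = exclAx (i, j) (i', j)}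

/-- The clauses of `onto-FPHP_n^m`: those of `PHP_n^m`, the functionality axioms and the surjectivity
axioms. -/
def ontoFPHP (m n : ℕ) : Set (Line (Fin m × Fin n)) :=
  PHP m n ∪ {D | (∃ (i : Fin m) (j j' : Fin n), j ≠ j' ∧ D = exclAx (i, j) (i, j')) ∨ ∃ j, D = ontoAx j}

end Pool.Agent.Work.MP_833881_lc
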