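import Pool.Agent.Work.MP_833881_lc.Defs

/-!
# A calculus of derivations with costs
-/

namespace Pool.Agent.Work.MP_833881_lc

open Finset

variable {V : Type} [DecidableEq V]

/-- All terms of the line are single literals. -/
def IsClause (D : Line V) : Prop := ∀ t ∈ D, t.card = 1

theorem IsClause.union {C D : Line V} (h1 : IsClause C) (h2 : IsClause D) : IsClause (C ∪ D) := by
  intro t ht
  rcases Finset.mem_union.1 ht with h | h
  · exact h1 t h
  · exact h2 t h

theorem IsClause.insert {D : Line V} (l : Lit V) (h : IsClause D) : IsClause (insert {l} D) := by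
  intro t ht
  rcases Finset.mem_insert.1 ht with h' | h'
  · rw [h']; exact Finset.card_singleton l
  · exact h t h'

theorem IsClause.image {ι : Type*} (S : Finset ι) (f : ι → Lit V) :
    IsClause (S.image (fun i => ({f i} : Term V))) := by
  intro t ht
  obtain ⟨i, -, rfl⟩ := Finset.mem_image.1 ht
  exact Finset.card_singleton _

theorem Infer.mono {F S S' : Set (Line V)} {D : Line V} (h : Infer F S D) (hS : S ⊆ S') : Infer F S' D := by
  cases h with
  | ax h => exact Infer.ax h
  | weak h1 h2 => exact Infer.weak (hS h1) h2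
  | andI h1 h2 => exact Infer.andI (hS h1) (hS h2)
  | cut h1 h2 => exact Infer.cut (hS h1) (hS h2)

/-- From the lines of `B` one can derive, in at most `N` lines (all of them clauses), all lines of `T`. -/
def Gen (F : Set (Line V)) (B T : Set (Line V)) (N : ℕ) : Prop :=
  ∃ ρ : List (Line V), (∀ (pre : List (Line V)) (D : Line V) (suf : List (Line V)), ρ = pre ++ D :: suf →
    Infer F (B ∪ {E | E ∈ pre}) D) ∧ (∀ D ∈ ρ, IsClause D) ∧ (∀ D ∈ T, D ∈ B ∨ D ∈ ρ) ∧ ρ.length ≤ N

theorem Gen.refl {F : Set (Line V)} {B T : Set (Line V)} (h : T ⊆ B) : Gen F B T 0 := by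
  refine ⟨[], ?_, ?_, ?_, le_refl _⟩
  · intro pre D suf h
    simp at h
  · intro D hD
    simp at hD
  · intro D hD
    exact Or.inl (h hD)

theorem Gen.mono {F : Set (Line V)} {B B' T T' : Set (Line V)} {N N' : ℕ} (h : Gen F B T N) (hB : B ⊆ B')
    (hT : T' ⊆ T) (hN : N ≤ N') : Gen F B' T' N' := by
  obtain ⟨ρ, h1, h2, h3, h4⟩ := h
  refine ⟨ρ, fun pre D suf he => (h1 pre D suf he).mono (Set.union_subset_union_left _ hB), h2,
    fun D hD => ?_, h4.trans hN⟩
  rcases h3 D (hT hD) with h | h
  · exact Or.inl (hB h)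
  · exact Or.inr h

theorem append_split {α : Type*} {ρ1 ρ2 pre suf : List α} {D : α} (h : ρ1 ++ ρ2 = pre ++ D :: suf) :
    (∃ s, ρ1 = pre ++ D :: s) ∨ ∃ p, pre = ρ1 ++ p ∧ ρ2 = p ++ D :: suf := by
  rcases List.append_eq_append_iff.1 h with ⟨p, hp1, hp2⟩ | ⟨s, hs1, hs2⟩
  · exact Or.inr ⟨p, hp1, hp2⟩
  · rcases List.cons_eq_append_iff.1 hs2 with ⟨rfl, h3⟩ | ⟨s', rfl, h3⟩
    · refine Or.inr ⟨[], ?_, ?_⟩
      · simpa using hs1.symm
      · simpa using h3
    · exact Or.inl ⟨s', hs1⟩

theorem Gen.trans' {F : Set (Line V)} {B T U : Set (Line V)} {N M : ℕ} (h1 : Gen F B T N)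
    (h2 : Gen F (B ∪ T) U M) : Gen F B (T ∪ U) (N + M) := by
  obtain ⟨ρ1, a1, a2, a3, a4⟩ := h1
  obtain ⟨ρ2, b1, b2, b3, b4⟩ := h2
  have hT : B ∪ T ⊆ B ∪ {E | E ∈ ρ1} := by
    intro D hD
    rcases hD with h | h
    · exact Or.inl h
    · rcases a3 D h with h' | h'
      · exact Or.inl h'
      · exact Or.inr h'
  refine ⟨ρ1 ++ ρ2, ?_, ?_, ?_, ?_⟩
  · intro pre D suf he
    rcases append_split he with ⟨s, hs⟩ | ⟨p, hp1, hp2⟩
    · exact a1 pre D s hs
    · refine (b1 p D suf hp2).mono ?_
      rw [hp1]
      intro E hE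
      rcases hE with h | h
      · rcases hT h with h' | h'
        · exact Or.inl h'
        · exact Or.inr (List.mem_append_left _ h')
      · exact Or.inr (List.mem_append_right _ h)
  · intro D hD
    rcases List.mem_append.1 hD with h | h
    · exact a2 D h
    · exact b2 D h
  · intro D hD
    rcases hD with h | h
    · rcases a3 D h with h' | h'
      · exact Or.inl h'
      · exact Or.inr (List.mem_append_left _ h')
    · rcases b3 D h with h' | h'
      · rcases hT h' with h'' | h''
        · exact Or.inl h''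
        · exact Or.inr (List.mem_append_left _ h'')
      · exact Or.inr (List.mem_append_right _ h')
  · rw [List.length_append]
    omega

theorem Gen.trans {F : Set (Line V)} {B T U : Set (Line V)} {N M : ℕ} (h1 : Gen F B T N)
    (h2 : Gen F (B ∪ T) U M) : Gen F B U (N + M) :=
  (Gen.trans' h1 h2).mono subset_rfl Set.subset_union_right le_rfl

theorem Gen.union {F : Set (Line V)} {B T U : Set (Line V)} {N M : ℕ} (h1 : Gen F B T N)
    (h2 : Gen F B U M) : Gen F B (T ∪ U) (N + M) :=
  Gen.trans' h1 (h2.mono Set.subset_union_left subset_rfl le_rfl)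

theorem Gen.biUnion {F : Set (Line V)} {B : Set (Line V)} {ι : Type*} [DecidableEq ι] (I : Finset ι)
    (T : ι → Set (Line V)) (N : ℕ) (h : ∀ i ∈ I, Gen F B (T i) N) :
    Gen F B {D | ∃ i ∈ I, D ∈ T i} (I.card * N) := by
  classical
  induction I using Finset.induction_on with
  | empty =>
    refine (Gen.refl (T := ∅) (Set.empty_subset _)).mono subset_rfl ?_ (Nat.zero_le _)
    rintro D ⟨i, hi, -⟩
    simp at hi
  | insert a s ha ih =>
    have h1 := ih (fun i hi => h i (Finset.mem_insert_of_mem hi))
    have h2 := h a (Finset.mem_insert_self _ _)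
    rw [Finset.card_insert_of_notMem ha]
    refine (Gen.union h1 h2).mono subset_rfl ?_ ?_
    · rintro D ⟨i, hi, hD⟩
      rcases Finset.mem_insert.1 hi with rfl | hi
      · exact Or.inr hD
      · exact Or.inl ⟨i, hi, hD⟩
    · rw [Nat.add_mul, Nat.one_mul]

theorem Gen.single {F : Set (Line V)} {B : Set (Line V)} {D : Line V} (hc : IsClause D) (h : Infer F B D) :
    Gen F B {D} 1 := by
  refine ⟨[D], ?_, ?_, ?_, le_refl _⟩
  · intro pre D' suf he
    rcases List.cons_eq_append_iff.1 he with ⟨rfl, h3⟩ | ⟨s', rfl, h3⟩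
    · have : D' = D := by
        have := List.cons.inj h3
        exact this.1
      rw [this]
      exact h.mono Set.subset_union_left
    · simp at h3
  · intro D' hD'
    rw [List.mem_singleton.1 hD']
    exact hc
  · intro D' hD'
    right
    rw [hD']
    exact List.mem_singleton_self D

/-- The positive clause of a set of variables. -/
def pos (S : Finset V) : Line V := S.image (fun v => {(v, true)})

theorem pos_clause (S : Finset V) : IsClause (pos S) := IsClause.image S (fun v => (v, true))

theorem pos_insert (v : V) (S : Finset V) : pos (insert v S) = insert {(v, true)} (pos S) := by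
  unfold pos
  rw [Finset.image_insert]

theorem pos_mono {S S' : Finset V} (h : S ⊆ S') : pos S ⊆ pos S' := Finset.image_subset_image h

/-- Resolving away the variables of `S`. -/
theorem gen_resolve {F : Set (Line V)} {B : Set (Line V)} {E : Line V} (hE : IsClause E) (S : Finset V)
    (h1 : ∀ v ∈ S, insert {(v, false)} E ∈ B) (h2 : E ∪ pos S ∈ B) : Gen F B {E} S.card := by
  classical
  induction S using Finset.induction_on generalizing B with
  | empty =>
    refine Gen.refl ?_
    intro D hD
    rw [hD]
    simpa [pos] using h2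
  | insert v S hv ih =>
    rw [Finset.card_insert_of_notMem hv, Nat.add_comm]
    have h3 : Infer F B (E ∪ pos S) := by
      have h4 : insert {(v, true)} (E ∪ pos S) ∈ B := by
        rw [← Finset.union_insert, ← pos_insert]
        exact h2
      have h5 : E ∪ negTerm {(v, true)} ∈ B := by
        have : E ∪ negTerm {(v, true)} = insert {(v, false)} E := by
          unfold negTerm
          rw [Finset.image_singleton, Finset.union_comm]
          rfl
        rw [this]
        exact h1 v (Finset.mem_insert_self _ _)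
      have h6 := Infer.cut (F := F) h4 h5
      have : E ∪ pos S ∪ E = E ∪ pos S := by
        rw [Finset.union_comm (E ∪ pos S) E, ← Finset.union_assoc, Finset.union_idempotent]
      rwa [this] at h6
    refine Gen.trans (Gen.single (hE.union (pos_clause S)) h3) ?_
    refine ih (fun w hw => Or.inl (h1 w (Finset.mem_insert_of_mem hw))) (Or.inr rfl)

end Pool.Agent.Work.MP_833881_lc
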