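import Pool.Agent.Work.MP_833881_lc.Rename

/-!
# The parameters of the tree refutation
-/

namespace Pool.Agent.Work.MP_833881_lc

open Finset

theorem tree_nat {n m K : ℕ} (hn : 16 ≤ n) (hK : 4 ≤ K) (hK2 : K * K ≤ n) (hl : Nat.log 2 n ≤ K)
    (hm : n * 2 ^ K ≤ m) :
    ∃ (π : List (Line (Fin m × Fin n))) (E : ℕ), IsRefutation 1 (PHP m n) π ∧
      size π ≤ 2 ^ E ∧ E * K ≤ 135 * n := by
  classical
  set l := Nat.log 2 n with hl'
  have hnl : n < 2 ^ (l + 1) := Nat.lt_pow_succ_log_self (by norm_num) n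
  set x := K / 4 with hx
  have hx1 : 1 ≤ x := by omega
  have hx4 : 4 * x ≤ K := by omega
  have hKx : K ≤ 8 * x := by omega
  set z := n / (32 * x) with hz
  have hz1 : 32 * x * z ≤ n := Nat.mul_div_le n (32 * x)
  have hz2 : n < 32 * x * (z + 1) := Nat.lt_mul_div_succ n (by omega)
  have hzn : 4 * (z + 1) ≤ n := by
    have h1 : 32 * z ≤ 32 * x * z := Nat.mul_le_mul_right _ (by omega)
    omega
  set r := 4 * (z + 1) with hr
  have hm0 : r * 16 ^ x ≤ n * 2 ^ K := by
    refine Nat.mul_le_mul hzn ?_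
    rw [show (16 : ℕ) = 2 ^ 4 by norm_num, ← pow_mul]
    exact Nat.pow_le_pow_right (by norm_num) hx4
  have hcov : n ≤ x * (8 * r) := by
    have : x * (8 * r) = 32 * x * (z + 1) := by rw [hr]; ring
    omega
  obtain ⟨M, hM⟩ : ∃ M, M = r * 16 ^ x := ⟨_, rfl⟩
  have hr1 : 1 ≤ r := Nat.mul_pos (by norm_num) (Nat.succ_pos z)
  have hM1 : 1 ≤ M := by
    rw [hM]
    exact Nat.mul_pos hr1 (by positivity)
  rw [← hM] at hm0
  obtain ⟨π0, hπ0, hlen⟩ := tree_comb (m := M) (n := n) (w := z + 1) hr (Nat.le_add_left 1 z) hM.symm.le hcov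
  obtain ⟨π, hπ, hsz⟩ := php_mono (hm0.trans hm) hπ0
  refine ⟨π, 49 * r + 48 * x + 63 + 6 * l + 3 * K, hπ, ?_, ?_⟩
  · rw [hsz]
    refine (size_le hπ0).trans ?_
    have hP : 1 ≤ 2 ^ (16 * r) := Nat.one_le_two_pow
    have hn2K : 1 ≤ n * 2 ^ K := Nat.mul_pos (by omega) (by positivity)
    have e1 : 2 + x * (2 ^ (16 * r) + 8 * r * (2 ^ (16 * r) * (3 * (M + 1) ^ 2))) ≤
        2 ^ (16 * r) * (27 * (x * r) * (M + 1) ^ 2) := by
      generalize 2 ^ (16 * r) = P at *
      have h1 : 1 ≤ x * r * (M + 1) ^ 2 := Nat.mul_pos (Nat.mul_pos hx1 hr1) (by positivity)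
      have h2 : x ≤ x * r * (M + 1) ^ 2 := by
        calc x = x * 1 * 1 := by ring
          _ ≤ x * r * (M + 1) ^ 2 := Nat.mul_le_mul (Nat.mul_le_mul_left _ hr1) (Nat.one_le_pow _ _ (by omega))
      calc 2 + x * (P + 8 * r * (P * (3 * (M + 1) ^ 2)))
          = 2 + P * x + P * (24 * (x * r * (M + 1) ^ 2)) := by ring
        _ ≤ P * (2 * (x * r * (M + 1) ^ 2)) + P * (x * r * (M + 1) ^ 2) + P * (24 * (x * r * (M + 1) ^ 2)) := by
            refine Nat.add_le_add_right (Nat.add_le_add ?_ (Nat.mul_le_mul_left _ h2)) _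
            calc 2 = 1 * (2 * 1) := by norm_num
              _ ≤ P * (2 * (x * r * (M + 1) ^ 2)) := Nat.mul_le_mul hP (Nat.mul_le_mul_left _ h1)
        _ = P * (27 * (x * r) * (M + 1) ^ 2) := by ring
    have hxn : x ≤ n := by nlinarith
    have e2 : 27 * (x * r) * (M + 1) ^ 2 ≤ 108 * n ^ 4 * 2 ^ (2 * K) := by
      have h1 : x * r ≤ n * n := Nat.mul_le_mul hxn hzn
      have h2 : M + 1 ≤ 2 * (n * 2 ^ K) := by omega
      calc 27 * (x * r) * (M + 1) ^ 2 ≤ 27 * (n * n) * (2 * (n * 2 ^ K)) ^ 2 :=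
            Nat.mul_le_mul (Nat.mul_le_mul_left _ h1) (Nat.pow_le_pow_left h2 2)
        _ = 108 * n ^ 4 * 2 ^ (2 * K) := by rw [pow_mul', mul_pow, mul_pow]; ring
    have e3 : 1 + 2 * (M * n) ≤ 3 * n ^ 2 * 2 ^ K := by
      have h1 : M * n ≤ n * 2 ^ K * n := Nat.mul_le_mul_right _ hm0
      have h2 : 1 ≤ n * 2 ^ K * n := Nat.mul_pos hn2K (by omega)
      calc 1 + 2 * (M * n) ≤ n * 2 ^ K * n + 2 * (n * 2 ^ K * n) :=
            Nat.add_le_add h2 (Nat.mul_le_mul_left _ h1)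
        _ = 3 * n ^ 2 * 2 ^ K := by ring
    have e4 : 108 * n ^ 4 * 2 ^ (2 * K) * (3 * n ^ 2 * 2 ^ K) ≤ 2 ^ (15 + 6 * l + 3 * K) := by
      have h5 : n ^ 6 ≤ 2 ^ (6 * l + 6) := by
        have := Nat.pow_le_pow_left hnl.le 6
        refine this.trans (le_of_eq ?_)
        rw [← pow_mul]
        congr 1
        ring
      calc 108 * n ^ 4 * 2 ^ (2 * K) * (3 * n ^ 2 * 2 ^ K) = 324 * n ^ 6 * 2 ^ (3 * K) := by
            rw [show 3 * K = 2 * K + K by ring, pow_add]; ring
        _ ≤ 2 ^ 9 * 2 ^ (6 * l + 6) * 2 ^ (3 * K) :=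
            Nat.mul_le_mul_right _ (Nat.mul_le_mul (by norm_num) h5)
        _ = 2 ^ (15 + 6 * l + 3 * K) := by
            rw [← pow_add, ← pow_add]; congr 1; ring
    calc π0.length * (1 + 2 * (M * n))
        ≤ (2 ^ (33 * r + 48 * (x + 1)) * (2 ^ (16 * r) * (108 * n ^ 4 * 2 ^ (2 * K)))) *
            (3 * n ^ 2 * 2 ^ K) :=
          Nat.mul_le_mul (hlen.trans (Nat.mul_le_mul_left _ (e1.trans (Nat.mul_le_mul_left _ e2)))) e3
      _ = 2 ^ (33 * r + 48 * (x + 1)) * 2 ^ (16 * r) *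
            (108 * n ^ 4 * 2 ^ (2 * K) * (3 * n ^ 2 * 2 ^ K)) := by ring
      _ ≤ 2 ^ (33 * r + 48 * (x + 1)) * 2 ^ (16 * r) * 2 ^ (15 + 6 * l + 3 * K) :=
          Nat.mul_le_mul_left _ e4
      _ = 2 ^ (49 * r + 48 * x + 63 + 6 * l + 3 * K) := by
          rw [← pow_add, ← pow_add]; congr 1; ring
  · have h1 : z * K ≤ z * (8 * x) := Nat.mul_le_mul_left _ hKx
    have h2 : 4 * (z * (8 * x)) ≤ n := by
      calc 4 * (z * (8 * x)) = 32 * x * z := by ring
        _ ≤ n := hz1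
    have h3 : r * K = 4 * (z * K) + 4 * K := by rw [hr]; ring
    have h4 : x * K * 4 ≤ K * K := by nlinarith
    have h5 : l * K ≤ K * K := Nat.mul_le_mul_right _ hl
    have h6 : 4 * K ≤ K * K := Nat.mul_le_mul_right _ hK
    calc (49 * r + 48 * x + 63 + 6 * l + 3 * K) * K
        = 49 * (r * K) + 12 * (x * K * 4) + 63 * K + 6 * (l * K) + 3 * (K * K) := by ring
      _ ≤ 135 * n := by omega

/-- The general form for `m ≥ n^2`. -/
theorem tree_real {n m : ℕ} (hn : 16 ≤ n) (hm : n ^ 2 ≤ m) :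
    ∃ (π : List (Line (Fin m × Fin n))), IsRefutation 1 (PHP m n) π ∧
      (size π : ℝ) ≤ Real.exp (270 * (n / Real.log m + Real.sqrt n)) := by
  have hn0 : (0 : ℝ) < n := by positivity
  have hnn : n * n ≤ m := by rw [← sq]; exact hm
  have hq : n ≤ m / n := (Nat.le_div_iff_mul_le (by omega)).2 hnn
  set a := Nat.log 2 (m / n) with ha
  set b := Nat.sqrt n with hb
  have hb4 : 4 ≤ b := by
    rw [hb, Nat.le_sqrt']
    omega
  have hbb : b * b ≤ n := Nat.sqrt_le n
  have hl4 : 4 ≤ Nat.log 2 n := Nat.le_log_of_pow_le (by norm_num) (by norm_num; omega)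
  have hla : Nat.log 2 n ≤ a := Nat.log_mono_right hq
  have hlb : Nat.log 2 n ≤ b := by
    rw [hb, Nat.le_sqrt']
    have h1 : 2 ^ Nat.log 2 n ≤ n := Nat.pow_log_le_self 2 (by omega)
    refine le_trans ?_ h1
    obtain ⟨d, hd⟩ := Nat.exists_eq_add_of_le hl4
    rw [hd]
    clear * -
    induction d with
    | zero => norm_num
    | succ d ih =>
      rw [show 4 + (d + 1) = (4 + d) + 1 by ring, pow_succ 2 (4 + d)]
      have h7 : (4 + d + 1) ^ 2 ≤ 2 * (4 + d) ^ 2 := by nlinarith [Nat.zero_le (d * d)]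
      omega
  set K := min a b with hK
  have hKa : K ≤ a := min_le_left _ _
  have hKb : K ≤ b := min_le_right _ _
  have hK4 : 4 ≤ K := le_min (hl4.trans hla) hb4
  have hmK : n * 2 ^ K ≤ m := by
    have h1 : 2 ^ a ≤ m / n := Nat.pow_log_le_self 2 (by omega)
    have h2 : n * 2 ^ K ≤ n * (m / n) :=
      Nat.mul_le_mul_left _ ((Nat.pow_le_pow_right (by norm_num) hKa).trans h1)
    exact h2.trans (Nat.mul_div_le m n)
  obtain ⟨π, E, hπ, hs, hE⟩ := tree_nat hn hK4 ((Nat.mul_le_mul hKb hKb).trans hbb) (le_min hla hlb) hmK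
  refine ⟨π, hπ, ?_⟩
  have hlog2 : 0.6931471803 < Real.log 2 := Real.log_two_gt_d9
  have hlog2' : Real.log 2 < 0.6931471808 := Real.log_two_lt_d9
  have hm1 : (1 : ℝ) < m := by
    have : 1 < m := by nlinarith
    exact_mod_cast this
  have hLm : 0 < Real.log m := Real.log_pos hm1
  -- a ≥ log m / 2
  have ha4 : (4 : ℝ) ≤ a := by exact_mod_cast hl4.trans hla
  have h1 : Real.log m / 2 ≤ a := by
    have h2 : (m : ℝ) / n ≤ 2 ^ (a + 1) := by
      have h3 : m / n < 2 ^ (a + 1) := Nat.lt_pow_succ_log_self (by norm_num) _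
      have h4 : m < 2 ^ (a + 1) * n := (Nat.div_lt_iff_lt_mul (by omega)).1 h3
      rw [div_le_iff₀ hn0]
      exact_mod_cast h4.le
    have h5 : Real.log m - Real.log n ≤ ((a : ℝ) + 1) * Real.log 2 := by
      rw [← Real.log_div (by positivity) (by positivity)]
      have := Real.log_le_log (by positivity) h2
      rw [Real.log_pow] at this
      push_cast at this
      exact this
    have h6 : 2 * Real.log n ≤ Real.log m := by
      have h7 : Real.log ((n : ℝ) ^ 2) ≤ Real.log m :=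
        Real.log_le_log (by positivity) (by exact_mod_cast hm)
      rw [Real.log_pow] at h7
      push_cast at h7
      exact h7
    have h8 : ((a : ℝ) + 1) * Real.log 2 ≤ a := by nlinarith
    linarith
  -- b ≥ sqrt n / 2
  have h2 : Real.sqrt n / 2 ≤ b := by
    have h3 : Real.sqrt n ≤ b + 1 := by
      rw [Real.sqrt_le_left (by positivity)]
      have : n < (b + 1) * (b + 1) := Nat.lt_succ_sqrt n
      have h4 : (n : ℝ) < ((b : ℝ) + 1) * (b + 1) := by exact_mod_cast this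
      nlinarith
    have h4 : (4 : ℝ) ≤ b := by exact_mod_cast hb4
    linarith
  have hsq : 0 < Real.sqrt n := Real.sqrt_pos.2 hn0
  have hEK : (E : ℝ) * K ≤ 135 * n := by exact_mod_cast hE
  have hEr : (E : ℝ) ≤ 270 * (n / Real.log m + Real.sqrt n) := by
    have hL0 : 0 ≤ (n : ℝ) / Real.log m := by positivity
    rcases min_choice a b with h | h
    · have h3 : (E : ℝ) * (Real.log m / 2) ≤ 135 * n := by
        refine le_trans ?_ hEK
        rw [hK, h]
        exact mul_le_mul_of_nonneg_left h1 (Nat.cast_nonneg _)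
      have h4 : (E : ℝ) ≤ 270 * (n / Real.log m) := by
        rw [← mul_div_assoc, le_div_iff₀ hLm]
        linarith
      linarith
    · have h3 : (E : ℝ) * (Real.sqrt n / 2) ≤ 135 * n := by
        refine le_trans ?_ hEK
        rw [hK, h]
        exact mul_le_mul_of_nonneg_left h2 (Nat.cast_nonneg _)
      have h4 : (E : ℝ) * Real.sqrt n ≤ 270 * Real.sqrt n * Real.sqrt n := by
        have := Real.mul_self_sqrt hn0.le
        nlinarith
      have h5 : (E : ℝ) ≤ 270 * Real.sqrt n := le_of_mul_le_mul_right h4 hsq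
      linarith
  calc (size π : ℝ) ≤ ((2 ^ E : ℕ) : ℝ) := by exact_mod_cast hs
    _ = (2 : ℝ) ^ E := by push_cast; rfl
    _ ≤ (Real.exp 1) ^ E := by
      refine pow_le_pow_left₀ (by norm_num) ?_ _
      have := Real.exp_one_gt_d9
      linarith
    _ = Real.exp E := by rw [← Real.exp_nat_mul, mul_one]
    _ ≤ Real.exp (270 * (n / Real.log m + Real.sqrt n)) := Real.exp_le_exp.2 hEr

/-- The case of `n^2` pigeons. -/
theorem tree_sq {n : ℕ} (hn : 16 ≤ n) :
    ∃ (π : List (Line (Fin (n ^ 2) × Fin n))), IsRefutation 1 (PHP (n ^ 2) n) π ∧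
      (size π : ℝ) ≤ Real.exp (405 * (n / Real.log n)) := by
  obtain ⟨π, hπ, hs⟩ := tree_real hn (le_refl (n ^ 2))
  refine ⟨π, hπ, hs.trans (Real.exp_le_exp.2 ?_)⟩
  have hn0 : (0 : ℝ) < n := by positivity
  have hn1 : (1 : ℝ) < n := by
    have : 1 < n := by omega
    exact_mod_cast this
  have hL : 0 < Real.log n := Real.log_pos hn1
  have h1 : Real.log ((n ^ 2 : ℕ) : ℝ) = 2 * Real.log n := by
    push_cast
    rw [Real.log_pow]
    norm_num
  rw [h1]
  have h2 : Real.sqrt n ≤ n / Real.log n := by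
    rw [le_div_iff₀ hL]
    have h3 : Real.log n ≤ Real.sqrt n := by
      have h4 : Real.log (Real.sqrt n) ≤ Real.sqrt n / 2 := by
        have h5 := Real.add_one_le_exp (Real.sqrt n / 2 - 1)
        have h6 : Real.sqrt n / 2 ≤ Real.exp (Real.sqrt n / 2 - 1) := by linarith
        have h7 : Real.log (Real.sqrt n / 2) ≤ Real.sqrt n / 2 - 1 := by
          rw [Real.log_le_iff_le_exp (by positivity)]
          exact h6
        rw [Real.log_div (by positivity) (by norm_num)] at h7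
        have h8 : Real.log 2 < 0.6931471808 := Real.log_two_lt_d9
        linarith
      rw [Real.log_sqrt hn0.le] at h4
      linarith
    calc Real.sqrt n * Real.log n ≤ Real.sqrt n * Real.sqrt n :=
          mul_le_mul_of_nonneg_left h3 (Real.sqrt_nonneg _)
      _ = n := Real.mul_self_sqrt hn0.le
  have h3 : (n : ℝ) / (2 * Real.log n) = (n / Real.log n) / 2 := by
    rw [div_div, mul_comm]
  rw [h3]
  linarith

end Pool.Agent.Work.MP_833881_lc
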