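import Pool.Agent.Work.MP_833881_lc.Tree

/-!
# Renaming variables; more pigeons
-/

namespace Pool.Agent.Work.MP_833881_lc

open Finset

section map

variable {V W : Type} [DecidableEq V] [DecidableEq W]

/-- The image of a literal. -/
def mapLit (f : V → W) (l : Lit V) : Lit W := (f l.1, l.2)

/-- The image of a term. -/
def mapTerm (f : V → W) (t : Term V) : Term W := t.image (mapLit f)

/-- The image of a line. -/
def mapLine (f : V → W) (D : Line V) : Line W := D.image (mapTerm f)

theorem mapLit_injective {f : V → W} (hf : Function.Injective f) : Function.Injective (mapLit f) := by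
  intro a b h
  have h0 := Prod.mk.inj h
  exact Prod.ext (hf h0.1) h0.2

theorem mapTerm_injective {f : V → W} (hf : Function.Injective f) : Function.Injective (mapTerm f) :=
  Finset.image_injective (mapLit_injective hf)

theorem mapLine_negTerm (f : V → W) (t : Term V) : mapLine f (negTerm t) = negTerm (mapTerm f t) := by
  unfold mapLine negTerm
  rw [Finset.image_image]
  unfold mapTerm
  rw [Finset.image_image]
  refine Finset.image_congr ?_
  intro l _
  simp only [Function.comp_apply, Finset.image_singleton]
  rfl

theorem mapLine_insert (f : V → W) (t : Term V) (C : Line V) :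
    mapLine f (insert t C) = insert (mapTerm f t) (mapLine f C) := by
  unfold mapLine
  rw [Finset.image_insert]

theorem mapLine_union (f : V → W) (C C' : Line V) : mapLine f (C ∪ C') = mapLine f C ∪ mapLine f C' := by
  unfold mapLine
  rw [Finset.image_union]

theorem Infer.map {F : Set (Line V)} {F' : Set (Line W)} {S : Set (Line V)} {D : Line V} (f : V → W)
    (hF : ∀ D ∈ F, mapLine f D ∈ F') (h : Infer F S D) : Infer F' (mapLine f '' S) (mapLine f D) := by
  cases h with
  | ax h => exact Infer.ax (hF _ h)
  | weak h1 h2 => exact Infer.weak ⟨_, h1, rfl⟩ (Finset.image_subset_image h2)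
  | andI h1 h2 =>
    rw [mapLine_insert, mapLine_union]
    have : ∀ s t : Term V, mapTerm f (s ∪ t) = mapTerm f s ∪ mapTerm f t := by
      intro s t
      unfold mapTerm
      rw [Finset.image_union]
    rw [this]
    refine Infer.andI ?_ ?_
    · rw [← mapLine_insert]; exact ⟨_, h1, rfl⟩
    · rw [← mapLine_insert]; exact ⟨_, h2, rfl⟩
  | @cut C C' t h1 h2 =>
    rw [mapLine_union]
    refine Infer.cut (t := mapTerm f t) ?_ ?_
    · rw [← mapLine_insert]; exact ⟨_, h1, rfl⟩
    · rw [← mapLine_negTerm, ← mapLine_union]; exact ⟨_, h2, rfl⟩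

theorem IsRefutation.map {k : ℕ} {F : Set (Line V)} {F' : Set (Line W)} {π : List (Line V)} {f : V → W}
    (hf : Function.Injective f) (hF : ∀ D ∈ F, mapLine f D ∈ F') (h : IsRefutation k F π) :
    IsRefutation k F' (π.map (mapLine f)) := by
  refine ⟨?_, ?_, ?_⟩
  · intro D hD t ht
    obtain ⟨D', hD', rfl⟩ := List.mem_map.1 hD
    obtain ⟨t', ht', rfl⟩ := Finset.mem_image.1 ht
    have := h.dnf D' hD' t' ht'
    unfold mapTerm
    rw [Finset.card_image_of_injective _ (mapLit_injective hf)]
    exact this
  · intro pre D suf he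
    obtain ⟨pre', rest, e1, e2, e3⟩ := List.map_eq_append_iff.1 he
    obtain ⟨D', suf', e4, e5, e6⟩ := List.map_eq_cons_iff.1 e3
    rw [← e5]
    have h1 := (h.step pre' D' suf' (by rw [e1, e4])).map f hF
    refine h1.mono ?_
    rintro E ⟨E', hE', rfl⟩
    show mapLine f E' ∈ pre
    rw [← e2]
    exact List.mem_map.2 ⟨E', hE', rfl⟩
  · exact List.mem_map.2 ⟨∅, h.bot, rfl⟩

theorem size_map {π : List (Line V)} {f : V → W} (hf : Function.Injective f) :
    size (π.map (mapLine f)) = size π := by
  unfold size
  rw [List.map_map]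
  congr 1
  refine List.map_congr_left ?_
  intro D _
  simp only [Function.comp_apply]
  congr 1
  unfold mapLine
  rw [Finset.sum_image (fun a _ b _ h => mapTerm_injective hf h)]
  refine Finset.sum_congr rfl (fun t _ => ?_)
  unfold mapTerm
  rw [Finset.card_image_of_injective _ (mapLit_injective hf)]

end map

/-- More pigeons make the principle only easier to refute. -/
theorem php_mono {m m' n : ℕ} (h : m ≤ m') {π : List (Line (Fin m × Fin n))} (hπ : IsRefutation 1 (PHP m n) π) :
    ∃ π' : List (Line (Fin m' × Fin n)), IsRefutation 1 (PHP m' n) π' ∧ size π' = size π := by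
  have hf : Function.Injective (fun v : Fin m × Fin n => ((Fin.castLE h v.1, v.2) : Fin m' × Fin n)) := by
    intro a b hab
    have h0 := Prod.mk.inj hab
    exact Prod.ext (Fin.castLE_injective h h0.1) h0.2
  refine ⟨π.map (mapLine (fun v => (Fin.castLE h v.1, v.2))), hπ.map hf ?_, size_map hf⟩
  intro D hD
  rcases hD with ⟨i, rfl⟩ | ⟨i, i', j, hne, rfl⟩
  · left
    refine ⟨Fin.castLE h i, ?_⟩
    unfold mapLine pigeonAx
    rw [Finset.image_image]
    rfl
  · right
    refine ⟨Fin.castLE h i, Fin.castLE h i', j, fun he => hne (Fin.castLE_injective h he), ?_⟩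
    unfold mapLine exclAx
    rw [Finset.image_insert, Finset.image_singleton]
    rfl

/-- A resolution refutation of `PHP` is an `R(2)` refutation of `onto-FPHP`. -/
theorem to_onto {m n : ℕ} {π : List (Line (Fin m × Fin n))} (hπ : IsRefutation 1 (PHP m n) π) :
    IsRefutation 2 (ontoFPHP m n) π := by
  refine ⟨?_, ?_, hπ.bot⟩
  · intro D hD t ht
    have := hπ.dnf D hD t ht
    omega
  · intro pre D suf he
    have h1 := hπ.step pre D suf he
    cases h1 with
    | ax h => exact Infer.ax (Or.inl h)
    | weak h1 h2 => exact Infer.weak h1 h2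
    | andI h1 h2 => exact Infer.andI h1 h2
    | cut h1 h2 => exact Infer.cut h1 h2

end Pool.Agent.Work.MP_833881_lc
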