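import Pool.Agent.Work.MP_833881_lc.Anc

/-!
# The tree refutation of `PHP_n^m`
-/

namespace Pool.Agent.Work.MP_833881_lc

open Finset

/-- One phase: from the sets of the family of depth `d + 1` to a set of depth `d`. -/
theorem gen_phase {m n w r d : ℕ} (e : ℕ) (hr : r = 4 * w) (hw : 1 ≤ w) {R : Finset ℕ} (hR : R ∈ famA r d)
    (t : ℕ) :
    Gen (PHP m n) {D | ∃ R' ∈ famA r (d + 1), D = bcl m n 16 e R' t}
      {bcl m n 16 (e + 1) R (t + 8 * r)}
      (2 ^ (16 * r) + 8 * r * (2 ^ (16 * r) * (3 * (m + 1) ^ 2))) := by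
  classical
  have hRc : R.card = r := (mem_famA.1 hR).1.2
  have hkc : (kids 16 R).card = 16 * r := by
    unfold kids
    rw [Finset.card_biUnion]
    · rw [Finset.sum_const_nat (m := 16), hRc, Nat.mul_comm]
      intro a ha
      rw [Finset.card_image_of_injective _ (fun c c' hcc => by
        have : a * 16 + c = a * 16 + c' := hcc
        omega), Finset.card_range]
    · intro a ha a' ha' hne
      rw [Function.onFun, Finset.disjoint_left]
      intro c hc hc'
      obtain ⟨d, hd, hd2⟩ := Finset.mem_image.1 hc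
      obtain ⟨d', hd', hd2'⟩ := Finset.mem_image.1 hc'
      have := Finset.mem_range.1 hd
      have := Finset.mem_range.1 hd'
      have : a * 16 + d = a' * 16 + d' := hd2.trans hd2'.symm
      omega
  -- weakenings
  have h1 := Gen.biUnion (F := PHP m n) (B := {D | ∃ R' ∈ famA r (d + 1), D = bcl m n 16 e R' t})
    (powersetCard (8 * r) (kids 16 R)) (fun Q => {bcl m n 16 e Q t}) 1 (by
    intro Q hQ
    obtain ⟨hQ1, hQ2⟩ := Finset.mem_powersetCard.1 hQ
    obtain ⟨R', hR1, hR2⟩ := select hr hw hR hQ1 hQ2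
    refine Gen.single (bcl_clause _ _ _ _ _ _) (Infer.weak (A := bcl m n 16 e R' t) ⟨R', hR2, rfl⟩ ?_)
    refine pos_mono ?_
    intro v hv
    obtain ⟨h2, h3⟩ := mem_bvars.1 hv
    exact mem_bvars.2 ⟨hR1 h2, h3⟩)
  have h2 := gen_block (m := m) (n := n) 16 e (kids 16 R) (8 * r) (by omega) t (8 * r)
  have h3 : Gen (PHP m n) ({D | ∃ R' ∈ famA r (d + 1), D = bcl m n 16 e R' t} ∪
      {D | ∃ Q ∈ powersetCard (8 * r) (kids 16 R), D ∈ ({bcl m n 16 e Q t} : Set _)})
      {bcl m n 16 (e + 1) R (t + 8 * r)} (8 * r * (2 ^ (16 * r) * (3 * (m + 1) ^ 2))) := by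
    refine h2.mono ?_ ?_ (by rw [hkc])
    · rintro D ⟨Q, hQ, rfl⟩
      exact Or.inr ⟨Q, hQ, rfl⟩
    · intro D hD
      refine ⟨kids 16 R, ?_, ?_⟩
      · rw [Finset.mem_powersetCard]
        refine ⟨subset_rfl, ?_⟩
        rw [hkc]
        ring
      · rw [bcl_kids (by norm_num)]
        exact hD
  refine (Gen.trans h1 h3).mono subset_rfl subset_rfl ?_
  refine Nat.add_le_add_right ?_ _
  rw [Nat.mul_one, ← hkc, ← Finset.card_powerset]
  exact Finset.card_le_card (fun s hs => Finset.mem_powerset.2 (Finset.mem_powersetCard.1 hs).1)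

/-- All levels of the tree. -/
theorem gen_tree {m n w r x : ℕ} (hr : r = 4 * w) (hw : 1 ≤ w) (hm : r * 16 ^ x ≤ m) (e : ℕ) (he : e ≤ x) :
    Gen (PHP m n) ∅ {D | ∃ R ∈ famA r (x - e), D = bcl m n 16 e R (e * (8 * r))}
      (2 ^ (33 * r + 48 * (x + 1)) *
        (2 + e * (2 ^ (16 * r) + 8 * r * (2 ^ (16 * r) * (3 * (m + 1) ^ 2))))) := by
  classical
  have hfam : ∀ d ≤ x, (famA r d).card ≤ 2 ^ (33 * r + 48 * (x + 1)) := by
    intro d hd
    refine (famA_card r d).trans (Nat.pow_le_pow_right (by norm_num) ?_)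
    omega
  induction e with
  | zero =>
    have h1 := Gen.biUnion (F := PHP m n) (B := ∅) (famA r x)
      (fun R => {bcl m n 16 0 R 0}) 2 (by
      intro R hR
      obtain ⟨⟨h2, h3⟩, -⟩ := mem_famA.1 hR
      obtain ⟨a, ha⟩ : R.Nonempty := by
        rw [← Finset.card_pos]; omega
      have ham : a < m := lt_of_lt_of_le (Finset.mem_range.1 (h2 ha)) hm
      have hcl : IsClause (pigeonAx (m := m) (n := n) ⟨a, ham⟩) :=
        IsClause.image univ (fun j => (((⟨a, ham⟩ : Fin m), j), true))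
      refine Gen.trans (Gen.single hcl (Infer.ax (Or.inl ⟨⟨a, ham⟩, rfl⟩)))
        (Gen.single (bcl_clause _ _ _ _ _ _)
          (Infer.weak (A := pigeonAx (m := m) (n := n) ⟨a, ham⟩) (Or.inr rfl) ?_))
      intro u hu
      obtain ⟨j, -, rfl⟩ := Finset.mem_image.1 hu
      refine Finset.mem_image.2 ⟨((⟨a, ham⟩ : Fin m), j), mem_bvars.2 ⟨?_, Nat.zero_le _⟩, rfl⟩
      simpa using ha)
    refine h1.mono subset_rfl ?_ ?_
    · rintro D ⟨R, hR, rfl⟩
      refine ⟨R, hR, ?_⟩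
      rw [Nat.zero_mul]
      rfl
    · rw [Nat.zero_mul, Nat.add_zero]
      exact Nat.mul_le_mul_right _ (hfam x le_rfl)
  | succ e ih =>
    have h1 := ih (by omega)
    have h2 := Gen.biUnion (F := PHP m n)
      (B := ∅ ∪ {D | ∃ R ∈ famA r (x - e), D = bcl m n 16 e R (e * (8 * r))})
      (famA r (x - (e + 1)))
      (fun R => {bcl m n 16 (e + 1) R (e * (8 * r) + 8 * r)})
      (2 ^ (16 * r) + 8 * r * (2 ^ (16 * r) * (3 * (m + 1) ^ 2))) (by
      intro R hR
      have hsub : x - e = (x - (e + 1)) + 1 := by omega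
      have h3 := gen_phase (m := m) (n := n) e hr hw hR (e * (8 * r))
      refine h3.mono ?_ subset_rfl le_rfl
      rintro D ⟨Q, hQ, rfl⟩
      right
      refine ⟨Q, ?_, rfl⟩
      rw [hsub]
      exact hQ)
    refine (Gen.trans h1 h2).mono subset_rfl ?_ ?_
    · rintro D ⟨R, hR, rfl⟩
      refine ⟨R, hR, ?_⟩
      have h6 : (e + 1) * (8 * r) = e * (8 * r) + 8 * r := by ring
      rw [h6]
      rfl
    · have h4 := hfam (x - (e + 1)) (by omega)
      have h5 : (famA r (x - (e + 1))).card *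
          (2 ^ (16 * r) + 8 * r * (2 ^ (16 * r) * (3 * (m + 1) ^ 2))) ≤
          2 ^ (33 * r + 48 * (x + 1)) * (2 ^ (16 * r) + 8 * r * (2 ^ (16 * r) * (3 * (m + 1) ^ 2))) :=
        Nat.mul_le_mul_right _ h4
      generalize 2 ^ (16 * r) + 8 * r * (2 ^ (16 * r) * (3 * (m + 1) ^ 2)) = K at *
      generalize 2 ^ (33 * r + 48 * (x + 1)) = C at *
      nlinarith

/-- The tree refutation with its number of lines. -/
theorem tree_comb {m n w r x : ℕ} (hr : r = 4 * w) (hw : 1 ≤ w) (hm : r * 16 ^ x ≤ m)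
    (hn : n ≤ x * (8 * r)) :
    ∃ π : List (Line (Fin m × Fin n)), IsRefutation 1 (PHP m n) π ∧
      π.length ≤ 2 ^ (33 * r + 48 * (x + 1)) *
        (2 + x * (2 ^ (16 * r) + 8 * r * (2 ^ (16 * r) * (3 * (m + 1) ^ 2)))) := by
  have h1 := gen_tree (m := m) (n := n) hr hw hm x le_rfl
  rw [Nat.sub_self] at h1
  refine refutation_of_gen (h1.mono subset_rfl ?_ le_rfl)
  intro D hD
  refine ⟨range r, range_mem_famA r, ?_⟩
  rw [bcl_empty hn]
  exact hD

end Pool.Agent.Work.MP_833881_lc
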